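import Pool.Agent.Helper76.DE.StT

/-!
# Project PRD (MP_77ff3d_nt), module Ce: from the tail to the mean
-/

set_option autoImplicit false

noncomputable section

namespace Pool.Agent.Helper45.PRD

open Finset Pool.Agent.Helper76.ND Pool.Agent.Helper76.DE

theorem Ct_step (Q : ℕ) (f : ℕ → ℝ) (n : ℕ) (hn : n + 1 ≤ Q) :
    f (n + 1) = ((n : ℝ) + 1) ^ 2 * (Ct Q f n - Ct Q f ((n + 1 : ℕ) : ℝ)) := by
  have h1 : Ct Q f n - Ct Q f ((n + 1 : ℕ) : ℝ) = f (n + 1) / ((n + 1 : ℕ) : ℝ) ^ 2 := by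
    unfold Ct
    rw [Finset.sum_filter, Finset.sum_filter, ← Finset.sum_sub_distrib]
    rw [Finset.sum_eq_single_of_mem (n + 1) (by rw [Finset.mem_Icc]; omega)]
    · have a1 : (n : ℝ) < ((n + 1 : ℕ) : ℝ) := by push_cast; linarith
      rw [if_pos a1, if_neg (lt_irrefl _), sub_zero]
    · intro m _ hm
      have a1 : ((n : ℝ) < (m : ℝ)) ↔ (((n + 1 : ℕ) : ℝ) < (m : ℝ)) := by
        rw [Nat.cast_lt, Nat.cast_lt]; omega
      by_cases h : (n : ℝ) < (m : ℝ)
      · rw [if_pos h, if_pos (a1.1 h), sub_self]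
      · rw [if_neg h, if_neg (fun h' => h (a1.2 h')), sub_self]
  rw [h1]
  push_cast
  field_simp

theorem sum_parts (Q : ℕ) (f : ℕ → ℝ) (M : ℕ) (hM : M ≤ Q) :
    ∑ n ∈ Icc 1 M, f n = ∑ n ∈ range M, (2 * (n : ℝ) + 1) * Ct Q f n - (M : ℝ) ^ 2 * Ct Q f M := by
  induction M with
  | zero => simp
  | succ M ih =>
    rw [Finset.sum_Icc_succ_top (by omega), Finset.sum_range_succ, ih (by omega),
      Ct_step Q f M hM]
    push_cast
    ring

/-- **Ce** (from the tail to the mean) -/
theorem hCe (hHh : StHh) : StCe := by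
  intro Q M N0 f c ε hf hN0 hNM hMQ hc hε hR
  obtain ⟨-, -, -, q4, q5, q6⟩ := hHh Q f hf
  have hMp : (0 : ℝ) < M := by
    have : 0 < M := by omega
    exact_mod_cast this
  have hN0p : (0 : ℝ) < N0 := by
    have : 0 < N0 := by omega
    exact_mod_cast this
  rw [sum_parts Q f M hMQ]
  have e1 : (∑ n ∈ range M, (2 * (n : ℝ) + 1) * Ct Q f n - (M : ℝ) ^ 2 * Ct Q f M) / M - c =
      (∑ n ∈ range M, ((2 * (n : ℝ) + 1) * Ct Q f n - 2 * c)) / M - (M * Ct Q f M - c) := by
    rw [Finset.sum_sub_distrib, Finset.sum_const, card_range, nsmul_eq_mul]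
    field_simp
    ring
  rw [e1]
  have hM := hR M hNM le_rfl
  have hterm : ∀ n ∈ range M, |(2 * (n : ℝ) + 1) * Ct Q f n - 2 * c| ≤
      (if n < N0 then 14 else 0) + (2 * ε + 2 / N0) := by
    intro n hn
    rw [Finset.mem_range] at hn
    have hpos : 0 ≤ 2 * ε + 2 / (N0 : ℝ) := by positivity
    have hC0 : 0 ≤ Ct Q f n := q4 n
    rw [abs_le] at hc
    by_cases h : n < N0
    · rw [if_pos h]
      have h1 : 0 ≤ (2 * (n : ℝ) + 1) * Ct Q f n := by positivity
      have h2 : (2 * (n : ℝ) + 1) * Ct Q f n ≤ 6 := by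
        rcases Nat.eq_zero_or_pos n with h0 | h0
        · subst h0
          simp only [Nat.cast_zero, mul_zero, zero_add, one_mul]
          linarith
        · have h3 : (1 : ℝ) ≤ n := by exact_mod_cast h0
          have h4 := q5 n h3
          have h5 : (2 * (n : ℝ) + 1) * Ct Q f n ≤ (3 * n) * Ct Q f n :=
            mul_le_mul_of_nonneg_right (by linarith) hC0
          linarith
      rw [abs_le]
      constructor <;> linarith [hc.1, hc.2]
    · rw [if_neg h]
      have h0 : N0 ≤ n := by omega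
      have h3 : (N0 : ℝ) ≤ n := by exact_mod_cast h0
      have h3' : (1 : ℝ) ≤ n := by
        have : 1 ≤ n := by omega
        exact_mod_cast this
      have h4 := q5 n h3'
      have h5 := hR n h0 hn.le
      have h6 : Ct Q f n ≤ 2 / N0 := by
        rw [le_div_iff₀ hN0p]
        calc Ct Q f n * N0 ≤ Ct Q f n * n := mul_le_mul_of_nonneg_left h3 hC0
          _ ≤ 2 := by linarith
      have e2 : (2 * (n : ℝ) + 1) * Ct Q f n - 2 * c = 2 * (n * Ct Q f n - c) + Ct Q f n := by ring
      rw [e2]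
      rw [abs_le] at h5 ⊢
      have h7 : 0 ≤ 2 / (N0 : ℝ) := by positivity
      constructor <;> linarith [h5.1, h5.2]
  have hsum : |∑ n ∈ range M, ((2 * (n : ℝ) + 1) * Ct Q f n - 2 * c)| ≤
      14 * N0 + M * (2 * ε + 2 / N0) := by
    refine le_trans (Finset.abs_sum_le_sum_abs _ _) (le_trans (Finset.sum_le_sum hterm) ?_)
    rw [Finset.sum_add_distrib, Finset.sum_const, card_range, nsmul_eq_mul, ← Finset.sum_filter,
      Finset.sum_const, nsmul_eq_mul]
    have h1 : ((range M).filter (fun n => n < N0)).card ≤ N0 := by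
      calc ((range M).filter (fun n => n < N0)).card ≤ (range N0).card := by
            apply Finset.card_le_card
            intro n hn
            rw [Finset.mem_filter] at hn
            exact Finset.mem_range.2 hn.2
        _ = N0 := card_range _
    have h2 : (((range M).filter (fun n => n < N0)).card : ℝ) ≤ N0 := by exact_mod_cast h1
    linarith
  have h1 : |(∑ n ∈ range M, ((2 * (n : ℝ) + 1) * Ct Q f n - 2 * c)) / M| ≤
      14 * N0 / M + (2 * ε + 2 / N0) := by
    rw [abs_div, abs_of_pos hMp, div_le_iff₀ hMp]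
    have : (14 * (N0 : ℝ) / M + (2 * ε + 2 / N0)) * M = 14 * N0 + M * (2 * ε + 2 / N0) := by
      field_simp
    rw [this]
    exact hsum
  rw [abs_le] at h1 hM ⊢
  constructor <;> linarith [h1.1, h1.2, hM.1, hM.2]

end Pool.Agent.Helper45.PRD
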