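import Pool.Agent.Helper76.DE.StT

/-!
# Project PRD (MP_77ff3d_nt), module Hh: properties of the smoothed sum
-/

set_option autoImplicit false

noncomputable section

namespace Pool.Agent.Helper45.PRD

open Finset Pool.Agent.Helper76.ND Pool.Agent.Helper76.DE

theorem Ct_eq_ite (Q : ℕ) (f : ℕ → ℝ) (y : ℝ) :
    Ct Q f y = ∑ n ∈ Icc 1 Q, if y < (n : ℝ) then f n / (n : ℝ) ^ 2 else 0 := by
  unfold Ct
  rw [Finset.sum_filter]

/-- tail of the series of the inverse squares -/
theorem tail_sq (Q : ℕ) (m : ℕ) (hm : 1 ≤ m) :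
    ∑ n ∈ Icc 1 Q, (if m < n then 1 / (n : ℝ) ^ 2 else 0) ≤ 1 / m - (if m ≤ Q then 1 / (Q : ℝ) else 1 / m) := by
  have hmp : (0 : ℝ) < m := by exact_mod_cast hm
  induction Q with
  | zero =>
    have h0 : ¬ (m ≤ 0) := by omega
    rw [if_neg h0]
    simp
  | succ Q ih =>
    rw [Finset.sum_Icc_succ_top (by omega)]
    by_cases h : m < Q + 1
    · have hQ : m ≤ Q := by omega
      rw [if_pos h, if_pos (by omega : m ≤ Q + 1)]
      rw [if_pos hQ] at ih
      have hQp : (0 : ℝ) < Q := by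
        have : 0 < Q := by omega
        exact_mod_cast this
      push_cast
      have : 1 / ((Q : ℝ) + 1) ^ 2 ≤ 1 / Q - 1 / (Q + 1) := by
        rw [div_sub_div _ _ (by positivity) (by positivity), div_le_div_iff₀ (by positivity) (by positivity)]
        nlinarith
      linarith
    · have h1 : ¬ (m ≤ Q) := by omega
      rw [if_neg h]
      rw [if_neg h1] at ih
      by_cases h2 : m ≤ Q + 1
      · have h3 : m = Q + 1 := by omega
        rw [if_pos h2]
        have : (m : ℝ) = ((Q + 1 : ℕ) : ℝ) := by exact_mod_cast h3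
        rw [← this]
        linarith
      · rw [if_neg h2]
        linarith

theorem Ct_le (Q : ℕ) (f : ℕ → ℝ) (hf : ∀ n, 0 ≤ f n ∧ f n ≤ 1) (y : ℝ) (hy : 1 ≤ y) :
    Ct Q f y ≤ 2 / y := by
  rw [Ct_eq_ite]
  have hm : 1 ≤ ⌊y⌋₊ := by
    rw [Nat.one_le_floor_iff]; exact hy
  have h1 : ∑ n ∈ Icc 1 Q, (if y < (n : ℝ) then f n / (n : ℝ) ^ 2 else 0) ≤
      ∑ n ∈ Icc 1 Q, (if ⌊y⌋₊ < n then 1 / (n : ℝ) ^ 2 else 0) := by
    apply Finset.sum_le_sum
    intro n hn
    by_cases h : y < (n : ℝ)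
    · rw [if_pos h, if_pos ((Nat.floor_lt (by linarith)).2 h)]
      apply div_le_div_of_nonneg_right (hf n).2 (by positivity)
    · rw [if_neg h]
      split_ifs <;> positivity
  have h2 := tail_sq Q ⌊y⌋₊ hm
  have h3 : (0 : ℝ) ≤ if ⌊y⌋₊ ≤ Q then 1 / (Q : ℝ) else 1 / (⌊y⌋₊ : ℝ) := by
    split_ifs <;> positivity
  have h4 : 1 / (⌊y⌋₊ : ℝ) ≤ 2 / y := by
    have h5 : y < ⌊y⌋₊ + 1 := Nat.lt_floor_add_one y
    have h6 : (1 : ℝ) ≤ ⌊y⌋₊ := by exact_mod_cast hm
    rw [div_le_div_iff₀ (by linarith) (by linarith)]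
    linarith
  linarith

theorem Ct_nonneg (Q : ℕ) (f : ℕ → ℝ) (hf : ∀ n, 0 ≤ f n ∧ f n ≤ 1) (y : ℝ) : 0 ≤ Ct Q f y := by
  unfold Ct
  apply Finset.sum_nonneg
  intro n _
  exact div_nonneg (hf n).1 (by positivity)

theorem Ct_zero_le (Q : ℕ) (f : ℕ → ℝ) (hf : ∀ n, 0 ≤ f n ∧ f n ≤ 1) : Ct Q f 0 ≤ 2 := by
  rw [Ct_eq_ite]
  have h2 := tail_sq Q 1 le_rfl
  have h3 : (0 : ℝ) ≤ if 1 ≤ Q then 1 / (Q : ℝ) else 1 / ((1 : ℕ) : ℝ) := by
    split_ifs <;> positivity
  have h1 : ∑ n ∈ Icc 1 Q, (if (0 : ℝ) < (n : ℝ) then f n / (n : ℝ) ^ 2 else 0) ≤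
      ∑ n ∈ Icc 1 Q, ((if 1 < n then 1 / (n : ℝ) ^ 2 else 0) + if n = 1 then 1 else 0) := by
    apply Finset.sum_le_sum
    intro n hn
    rw [Finset.mem_Icc] at hn
    have hn0 : (0 : ℝ) < n := by
      have : 0 < n := by omega
      exact_mod_cast this
    rw [if_pos hn0]
    by_cases h : 1 < n
    · rw [if_pos h, if_neg (by omega)]
      have : f n / (n : ℝ) ^ 2 ≤ 1 / (n : ℝ) ^ 2 :=
        div_le_div_of_nonneg_right (hf n).2 (by positivity)
      linarith
    · have h1 : n = 1 := by omega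
      subst h1
      simp [(hf 1).2]
  rw [Finset.sum_add_distrib] at h1
  have h4 : ∑ n ∈ Icc 1 Q, (if n = 1 then (1 : ℝ) else 0) ≤ 1 := by
    rw [Finset.sum_ite_eq']
    split_ifs <;> norm_num
  have h5 : (1 : ℝ) / ((1 : ℕ) : ℝ) = 1 := by norm_num
  rw [h5] at h2
  linarith

/-- the difference of two values of the potential -/
theorem phi_diff_le (n : ℕ) (y y' : ℝ) (hn : 1 ≤ n) (hy : 0 < y) (hyy : y ≤ y') :
    0 ≤ phi (n / y') - phi (n / y) ∧
    phi (n / y') - phi (n / y) ≤ (if y < (n : ℝ) then (y' - y) / n else 0) ∧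
    (if y' < (n : ℝ) then (y' - y) / n else 0) ≤ phi (n / y') - phi (n / y) := by
  have hnp : (0 : ℝ) < n := by exact_mod_cast hn
  have hy' : 0 < y' := by linarith
  unfold phi
  rw [one_div_div, one_div_div, sub_div]
  have hle : y / (n : ℝ) ≤ y' / n := by gcongr
  by_cases h : y < (n : ℝ)
  · have h1 : y / (n : ℝ) ≤ 1 := by rw [div_le_one hnp]; exact h.le
    rw [if_pos h, min_eq_right h1]
    by_cases h2 : y' < (n : ℝ)
    · have h3 : y' / (n : ℝ) ≤ 1 := by rw [div_le_one hnp]; exact h2.le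
      rw [if_pos h2, min_eq_right h3]
      refine ⟨by linarith, le_rfl, le_rfl⟩
    · have h3 : 1 ≤ y' / (n : ℝ) := by rw [le_div_iff₀ hnp]; linarith
      rw [if_neg h2, min_eq_left h3]
      refine ⟨by linarith, by linarith, by linarith⟩
  · have h1 : 1 ≤ y / (n : ℝ) := by rw [le_div_iff₀ hnp]; linarith
    have h2 : ¬ y' < (n : ℝ) := by
      intro h3; exact h (by linarith)
    rw [if_neg h, if_neg h2, min_eq_left h1, min_eq_left (by linarith)]
    simp

/-- two-sided bound for the difference of two values of `HH` -/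
theorem HH_diff (Q : ℕ) (f : ℕ → ℝ) (hf : ∀ n, 0 ≤ f n ∧ f n ≤ 1) (y y' : ℝ) (hy : 0 < y)
    (hyy : y ≤ y') :
    (y' - y) * Ct Q f y' ≤ HH Q f y' - HH Q f y ∧ HH Q f y' - HH Q f y ≤ (y' - y) * Ct Q f y := by
  have e : HH Q f y' - HH Q f y =
      ∑ n ∈ Icc 1 Q, (phi (n / y') - phi (n / y)) * (f n / n) := by
    unfold HH
    rw [← Finset.sum_sub_distrib]
    apply Finset.sum_congr rfl
    intro n _
    ring
  rw [e, Ct_eq_ite, Ct_eq_ite, Finset.mul_sum, Finset.mul_sum]
  constructor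
  · apply Finset.sum_le_sum
    intro n hn
    rw [Finset.mem_Icc] at hn
    have hnp : (0 : ℝ) < n := by
      have : 0 < n := by omega
      exact_mod_cast this
    have h := (phi_diff_le n y y' hn.1 hy hyy).2.2
    have hfn : 0 ≤ f n / n := div_nonneg (hf n).1 hnp.le
    refine le_trans (le_of_eq ?_) (mul_le_mul_of_nonneg_right h hfn)
    split_ifs
    · field_simp
    · ring
  · apply Finset.sum_le_sum
    intro n hn
    rw [Finset.mem_Icc] at hn
    have hnp : (0 : ℝ) < n := by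
      have : 0 < n := by omega
      exact_mod_cast this
    have h := (phi_diff_le n y y' hn.1 hy hyy).2.1
    have hfn : 0 ≤ f n / n := div_nonneg (hf n).1 hnp.le
    refine le_trans (mul_le_mul_of_nonneg_right h hfn) (le_of_eq ?_)
    split_ifs
    · field_simp
    · ring

/-- **Hh** (properties of `HH`) -/
theorem hHh (hPo : StPo) : StHh := by
  obtain ⟨hp1, hp2, hp3, hp4, -, -, -, -, -⟩ := hPo
  intro Q f hf
  refine ⟨?_, ?_, ?_, Ct_nonneg Q f hf, ?_, Ct_zero_le Q f hf⟩
  · intro y hy hQ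
    have hfl : ⌊2 * y⌋₊ ≤ Q := by
      have : (⌊2 * y⌋₊ : ℝ) ≤ Q := le_trans (Nat.floor_le (by linarith)) hQ
      exact_mod_cast this
    have h1 : II y f = ∑ N ∈ Icc 1 Q, mu y N * f N := by
      unfold II
      apply Finset.sum_subset
      · intro n hn
        rw [Finset.mem_Icc] at hn ⊢
        omega
      · intro n hn hn'
        rw [Finset.mem_Icc] at hn hn'
        have hlt : ⌊2 * y⌋₊ < n := by
          by_contra hh
          exact hn' ⟨hn.1, by omega⟩
        have hlt' : 2 * y < n := (Nat.floor_lt (by linarith)).1 hlt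
        have h32 : 3 / 2 ≤ (n : ℝ) / y := by
          rw [le_div_iff₀ hy]; linarith
        unfold mu
        rw [hp4 _ h32]
        simp
    rw [h1]
    unfold HH
    rw [← Finset.sum_add_distrib, Finset.sum_div, ← Finset.sum_sub_distrib]
    apply Finset.sum_congr rfl
    intro n hn
    rw [Finset.mem_Icc] at hn
    have hnp : (0 : ℝ) < n := by
      have : 0 < n := by omega
      exact_mod_cast this
    have hv : 0 < (n : ℝ) / y := by positivity
    have h2 := hp1 _ hv
    have e1 : (n : ℝ) / (y / 2) = 2 * (n / y) := by field_simp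
    have e2 : (n : ℝ) / (3 * y / 2) = 2 * (n / y) / 3 := by field_simp
    rw [e1, e2, h2]
    unfold mu
    field_simp
    ring
  · intro y y' hy hyy
    have h := HH_diff Q f hf y y' (by linarith) hyy
    refine ⟨le_trans ?_ h.1, le_trans h.2 ?_⟩
    · exact mul_nonneg (by linarith) (Ct_nonneg Q f hf y')
    · have h1 := Ct_le Q f hf y hy
      calc (y' - y) * Ct Q f y ≤ (y' - y) * (2 / y) :=
            mul_le_mul_of_nonneg_left h1 (by linarith)
        _ = 2 * (y' / y - 1) := by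
            have : y ≠ 0 := by linarith
            field_simp
  · intro y r hy hr
    have h := HH_diff Q f hf y (r * y) hy (by nlinarith)
    have e : r * y - y = (r - 1) * y := by ring
    rw [e] at h
    exact h
  · intro y hy
    have h1 := Ct_le Q f hf y hy
    calc y * Ct Q f y ≤ y * (2 / y) := mul_le_mul_of_nonneg_left h1 (by linarith)
      _ = 2 := by
          have : y ≠ 0 := by linarith
          field_simp

end Pool.Agent.Helper45.PRD
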