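import Pool.Agent.Helper76.DE.StT

/-!
# Project PRD (MP_77ff3d_nt), module Nl: nearly linear functions
-/

set_option autoImplicit false

noncomputable section

namespace Pool.Agent.Helper45.PRD

open Finset Pool.Agent.Helper76.ND Pool.Agent.Helper76.DE

theorem rho_pos' : 0 < rho := by
  unfold rho
  have : 0 < Real.log (4 / 3) := Real.log_pos (by norm_num)
  linarith

theorem rho_le' : rho ≤ 1 / 6 := by
  unfold rho
  have : Real.log (4 / 3) ≤ 4 / 3 - 1 := Real.log_le_sub_one_of_pos (by norm_num)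
  linarith

theorem la_lb' : la - lb = 2 * rho := by
  unfold la lb rho
  have : Real.log 2 = Real.log (4 / 3) + Real.log (3 / 2) := by
    rw [← Real.log_mul (by norm_num) (by norm_num)]; norm_num
  linarith

theorem la_pos' : 0 < la := Real.log_pos (by norm_num)

theorem la_le' : la ≤ 1 := by
  unfold la
  have : Real.log 2 ≤ 2 - 1 := Real.log_le_sub_one_of_pos (by norm_num)
  linarith

theorem lb_pos' : 0 < lb := Real.log_pos (by norm_num)

theorem lb_le' : lb ≤ 1 := by
  unfold lb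
  have : Real.log (3 / 2) ≤ 3 / 2 - 1 := Real.log_le_sub_one_of_pos (by norm_num)
  linarith

/-- one direction of the comparison with a linear function -/
theorem lin_aux (h : ℝ → ℝ) (s0 T Λ e1 g0 : ℝ) (m : ℕ) (hm : 1 ≤ m) (hTΛ : T + 1 ≤ Λ)
    (h1 : ∀ u v, |u - s0| ≤ Λ → |v - s0| ≤ Λ → u ≤ v → v ≤ u + 1 →
      0 ≤ h v - h u ∧ h v - h u ≤ 4 * (v - u))
    (hg : ∀ s, |s - s0| ≤ T + 1 → |h (s + 1 / m) - h s - g0| ≤ e1) (hg0 : 0 ≤ g0)
    (hg4 : m * g0 ≤ 4) (he1 : 0 ≤ e1)
    (a b : ℝ) (hab : a ≤ b) (habT : b - a ≤ T) (ha : |a - s0| ≤ T) (hb : |b - s0| ≤ T) :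
    |h b - h a - m * g0 * (b - a)| ≤ T * m * e1 + 8 / m := by
  have hmp : (0 : ℝ) < m := by exact_mod_cast hm
  have hm1 : (1 : ℝ) ≤ m := by exact_mod_cast hm
  have hT0 : 0 ≤ T := le_trans (abs_nonneg _) ha
  have key : ∀ n : ℕ, (n : ℝ) / m ≤ b - a →
      |h (a + n / m) - h a - n * g0| ≤ n * e1 := by
    intro n
    induction n with
    | zero => intro _; simp
    | succ n ih =>
      intro hn
      have hn' : (n : ℝ) / m ≤ b - a := by
        refine le_trans ?_ hn
        push_cast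
        gcongr
        linarith
      have h2 := ih hn'
      have hnn : 0 ≤ (n : ℝ) / m := by positivity
      have h3 := hg (a + n / m) (by
        rw [abs_le] at ha hb ⊢
        constructor <;> linarith [ha.1, ha.2, hb.1, hb.2])
      have e : a + ((n + 1 : ℕ) : ℝ) / m = a + n / m + 1 / m := by
        push_cast; ring
      rw [e]
      push_cast
      rw [abs_le] at h2 h3 ⊢
      constructor <;> linarith [h2.1, h2.2, h3.1, h3.2]
  set n : ℕ := ⌊(b - a) * m⌋₊ with hn
  have hba : 0 ≤ (b - a) * m := by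
    apply mul_nonneg _ hmp.le; linarith
  have hn1 : (n : ℝ) ≤ (b - a) * m := Nat.floor_le hba
  have hn2 : (b - a) * m < n + 1 := Nat.lt_floor_add_one _
  have hn1' : (n : ℝ) / m ≤ b - a := by rw [div_le_iff₀ hmp]; exact hn1
  have hn2' : b - a ≤ (n : ℝ) / m + 1 / m := by
    rw [← add_div, le_div_iff₀ hmp]; exact hn2.le
  have hk := key n hn1'
  have hnn : 0 ≤ (n : ℝ) / m := by positivity
  have h1m : (1 : ℝ) / m ≤ 1 := by
    rw [div_le_iff₀ hmp]; linarith
  have hu : |a + n / m - s0| ≤ Λ := by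
    rw [abs_le] at ha hb ⊢
    constructor <;> linarith [ha.1, ha.2, hb.1, hb.2]
  have hv : |b - s0| ≤ Λ := by linarith
  have h4 := h1 (a + n / m) b hu hv (by linarith) (by linarith)
  have hne : (n : ℝ) * e1 ≤ T * m * e1 := by
    apply mul_le_mul_of_nonneg_right _ he1
    calc (n : ℝ) ≤ (b - a) * m := hn1
      _ ≤ T * m := by apply mul_le_mul_of_nonneg_right habT hmp.le
  have h5 : (n : ℝ) * g0 = m * g0 * (n / m) := by field_simp
  have h6 : 0 ≤ m * g0 * (b - a - n / m) := by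
    apply mul_nonneg (by positivity); linarith
  have h7 : m * g0 * (b - a - n / m) ≤ 4 * (1 / m) := by
    apply mul_le_mul hg4 _ _ (by norm_num) <;> linarith
  have h8 : 4 * (b - (a + n / m)) ≤ 4 * (1 / m) := by linarith
  have h9 : (8 : ℝ) / m = 2 * (4 * (1 / m)) := by ring
  rw [h9]
  have h10 : m * g0 * (b - a) = n * g0 + m * g0 * (b - a - n / m) := by rw [h5]; ring
  rw [h10]
  have h11 : 0 ≤ 4 * (1 / (m : ℝ)) := by positivity
  rw [abs_le] at hk ⊢
  constructor <;> linarith [hk.1, hk.2, h4.1, h4.2]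

/-- **Nl** (nearly linear) -/
theorem hNl (hNc : StNc) : StNl := by
  intro T' ε hT' hε
  have hrp := rho_pos'
  have hrl := rho_le'
  obtain ⟨T, hT1, hTT⟩ : ∃ T : ℝ, 1 ≤ T ∧ T' ≤ T := ⟨max T' 1, le_max_right _ _, le_max_left _ _⟩
  have hTp : 0 < T := by linarith
  obtain ⟨ε2, hε2⟩ : ∃ ε2 : ℝ, ε2 = ε * rho / (8 * T) := ⟨_, rfl⟩
  have hε2p : 0 < ε2 := by rw [hε2]; positivity
  obtain ⟨m, hm⟩ := exists_nat_gt (16 / ε2)
  have hmp : (0 : ℝ) < m := lt_trans (by positivity) hm
  have hm1 : 1 ≤ m := by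
    have : (0 : ℕ) < m := by exact_mod_cast hmp
    omega
  have hm1' : (1 : ℝ) ≤ m := by exact_mod_cast hm1
  have h8m : 8 / (m : ℝ) ≤ ε2 / 2 := by
    rw [div_lt_iff₀ hε2p] at hm
    rw [div_le_iff₀ hmp]
    linarith
  have h1m : (1 : ℝ) / m ≤ 1 := by rw [div_le_iff₀ hmp]; linarith
  have h1m0 : 0 < (1 : ℝ) / m := by positivity
  obtain ⟨ε1, hε1⟩ : ∃ ε1 : ℝ, ε1 = ε2 / (2 * m * (T + 1)) := ⟨_, rfl⟩
  have hε1p : 0 < ε1 := by rw [hε1]; positivity
  obtain ⟨Λ0, η0, hΛ0, hη0, hN⟩ := hNc (T + 1) ε1 (by linarith) hε1p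
  refine ⟨Λ0 + 1, min (η0 / 2) ε2, by linarith, lt_min (by linarith) hε2p, ?_⟩
  intro h s0 l h1 h2 s hs
  have hη1 : min (η0 / 2) ε2 ≤ η0 / 2 := min_le_left _ _
  have hη2 : min (η0 / 2) ε2 ≤ ε2 := min_le_right _ _
  have hb0 : ∀ u, |u - s0| ≤ Λ0 → 0 ≤ h (u + 1 / m) - h u ∧ h (u + 1 / m) - h u ≤ 4 * (1 / m) := by
    intro u hu
    have := h1 u (u + 1 / m) (by linarith) (by
      rw [abs_le] at hu ⊢
      constructor <;> linarith [hu.1, hu.2]) (by linarith) (by linarith)
    have e : u + 1 / (m : ℝ) - u = 1 / m := by ring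
    rw [e] at this
    exact this
  have hgc : ∀ s, |s - s0| ≤ T + 1 →
      |(h (s + 1 / m) - h s) - (h (s0 + 1 / m) - h s0)| ≤ ε1 := by
    refine hN (fun s => h (s + 1 / m) - h s) s0 ?_ ?_ ?_
    · intro u hu
      have := hb0 u hu
      have h4 : 4 * (1 / (m : ℝ)) ≤ 4 := by linarith
      show |h (u + 1 / m) - h u| ≤ 4
      rw [abs_le]
      constructor <;> linarith [this.1, this.2]
    · have hmain : ∀ u v, |u - s0| ≤ Λ0 → |v - s0| ≤ Λ0 → u ≤ v →
          |(h (u + 1 / m) - h u) - (h (v + 1 / m) - h v)| ≤ 8 * (v - u) := by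
        intro u v hu hv huv
        by_cases h1' : v ≤ u + 1
        · have a1 := h1 u v (by linarith) (by linarith) huv h1'
          have a2 := h1 (u + 1 / m) (v + 1 / m) (by
            rw [abs_le] at hu ⊢
            constructor <;> linarith [hu.1, hu.2]) (by
            rw [abs_le] at hv ⊢
            constructor <;> linarith [hv.1, hv.2]) (by linarith) (by linarith)
          rw [abs_le]
          constructor <;> linarith [a1.1, a1.2, a2.1, a2.2]
        · push Not at h1'
          have a1 := hb0 u hu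
          have a2 := hb0 v hv
          rw [abs_le]
          constructor <;> linarith [a1.1, a1.2, a2.1, a2.2]
      intro u v hu hv
      show |(h (u + 1 / m) - h u) - (h (v + 1 / m) - h v)| ≤ 8 * |u - v|
      rcases le_total u v with huv | huv
      · have := hmain u v hu hv huv
        rw [abs_sub_comm u v, abs_of_nonneg (by linarith : 0 ≤ v - u)]
        exact this
      · have := hmain v u hv hu huv
        rw [abs_of_nonneg (by linarith : 0 ≤ u - v), abs_sub_comm]
        exact this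
    · intro u hu1 hu2
      show |(h (u + 1 / m) - h u) - ((h (u - la + 1 / m) - h (u - la)) +
        (h (u + lb + 1 / m) - h (u + lb))) / 2| ≤ η0
      have a1 := h2 u (by linarith) (by linarith)
      have a2 := h2 (u + 1 / m) (by linarith) (by linarith)
      have e1 : u + 1 / (m : ℝ) - la = u - la + 1 / m := by ring
      have e2 : u + 1 / (m : ℝ) + lb = u + lb + 1 / m := by ring
      rw [e1, e2] at a2
      rw [abs_le] at a1 a2 ⊢
      constructor <;> linarith [a1.1, a1.2, a2.1, a2.2]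
  have hT0 : |s0 - s0| ≤ Λ0 := by rw [sub_self, abs_zero]; linarith
  have hg0 := hb0 s0 hT0
  obtain ⟨g0, hg0e⟩ : ∃ g0 : ℝ, g0 = h (s0 + 1 / m) - h s0 := ⟨_, rfl⟩
  rw [← hg0e] at hg0 hgc
  have hmg4 : (m : ℝ) * g0 ≤ 4 := by
    calc (m : ℝ) * g0 ≤ m * (4 * (1 / m)) := by
          apply mul_le_mul_of_nonneg_left hg0.2 hmp.le
      _ = 4 := by field_simp
  have hTm : T * m * ε1 ≤ ε2 / 2 := by
    rw [hε1]
    have : T * m * (ε2 / (2 * m * (T + 1))) = (T / (T + 1)) * (ε2 / 2) := by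
      field_simp
    rw [this]
    have h3 : T / (T + 1) ≤ 1 := by rw [div_le_one (by linarith)]; linarith
    calc T / (T + 1) * (ε2 / 2) ≤ 1 * (ε2 / 2) := by
          apply mul_le_mul_of_nonneg_right h3 (by linarith)
      _ = ε2 / 2 := one_mul _
  have hlin : ∀ a b : ℝ, a ≤ b → b - a ≤ T → |a - s0| ≤ T → |b - s0| ≤ T →
      |h b - h a - m * g0 * (b - a)| ≤ ε2 := by
    intro a b hab habT ha hb
    have := lin_aux h s0 T (Λ0 + 1) ε1 g0 m hm1 (by linarith) h1 hgc hg0.1 hmg4 hε1p.le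
      a b hab habT ha hb
    linarith
  have hla := la_pos'
  have hla1 := la_le'
  have hlb := lb_pos'
  have hlb1 := lb_le'
  have hll := la_lb'
  have b1 := hlin (s0 - la) s0 (by linarith) (by linarith)
    (by rw [abs_le]; constructor <;> linarith) (by rw [sub_self, abs_zero]; linarith)
  have b2 := hlin s0 (s0 + lb) (by linarith) (by linarith)
    (by rw [sub_self, abs_zero]; linarith) (by rw [abs_le]; constructor <;> linarith)
  have b3 := h2 s0 (by linarith) (by linarith)
  have e1 : s0 - (s0 - la) = la := by ring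
  have e2 : s0 + lb - s0 = lb := by ring
  rw [e1] at b1
  rw [e2] at b2
  obtain ⟨c0, hc0⟩ : ∃ c0 : ℝ, c0 = m * g0 := ⟨_, rfl⟩
  rw [← hc0] at b1 b2 hlin
  have b4 : |rho * c0 - l| ≤ 2 * ε2 := by
    have e3 : rho * c0 = (la * c0 - lb * c0) / 2 := by
      have : rho = (la - lb) / 2 := by linarith
      rw [this]; ring
    rw [e3]
    rw [abs_le] at b1 b2 b3 ⊢
    constructor <;> linarith [b1.1, b1.2, b2.1, b2.2, b3.1, b3.2]
  have b5 : |c0 - l / rho| ≤ 2 * ε2 / rho := by
    have e4 : c0 - l / rho = (rho * c0 - l) / rho := by field_simp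
    rw [e4, abs_div, abs_of_pos hrp]
    gcongr
  have hs' : |s - s0| ≤ T := by linarith
  have b6 : |h s - h s0 - c0 * (s - s0)| ≤ ε2 := by
    rcases le_total s0 s with hss | hss
    · exact hlin s0 s hss (by rw [abs_le] at hs'; linarith [hs'.2])
        (by rw [sub_self, abs_zero]; linarith) hs'
    · have := hlin s s0 hss (by rw [abs_le] at hs'; linarith [hs'.1]) hs'
        (by rw [sub_self, abs_zero]; linarith)
      rw [← abs_neg]
      have e5 : -(h s - h s0 - c0 * (s - s0)) = h s0 - h s - c0 * (s0 - s) := by ring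
      rw [e5]
      exact this
  have b7 : |(c0 - l / rho) * (s - s0)| ≤ ε / 4 := by
    rw [abs_mul]
    calc |c0 - l / rho| * |s - s0| ≤ (2 * ε2 / rho) * T := by
          apply mul_le_mul b5 hs' (abs_nonneg _); positivity
      _ = ε / 4 := by rw [hε2]; field_simp; norm_num
  have b8 : ε2 ≤ ε / 4 := by
    rw [hε2, div_le_iff₀ (by linarith)]
    have : rho ≤ 2 * T := by linarith
    calc ε * rho ≤ ε * (2 * T) := by apply mul_le_mul_of_nonneg_left this hε.le
      _ = ε / 4 * (8 * T) := by ring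
  have e6 : h s - h s0 - l / rho * (s - s0) =
      (h s - h s0 - c0 * (s - s0)) + (c0 - l / rho) * (s - s0) := by ring
  rw [e6]
  calc |(h s - h s0 - c0 * (s - s0)) + (c0 - l / rho) * (s - s0)|
      ≤ |h s - h s0 - c0 * (s - s0)| + |(c0 - l / rho) * (s - s0)| := abs_add_le _ _
    _ ≤ ε := by linarith

end Pool.Agent.Helper45.PRD
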