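import Pool.Agent.Helper76.DE.StT

/-!
# Project PRD (MP_77ff3d_nt), module Rr: the tail of the series
-/

set_option autoImplicit false

noncomputable section

namespace Pool.Agent.Helper45.PRD

open Finset Pool.Agent.Helper76.ND Pool.Agent.Helper76.DE

/-- **Rr** (the tail) -/
theorem hRr (hHh : StHh) : StRr := by
  intro Q f s0 c T ε hf hε hε1 hc hT hlin y hy hys
  obtain ⟨-, -, q3, q4, -, -⟩ := hHh Q f hf
  obtain ⟨μ, hμ⟩ : ∃ μ : ℝ, μ = Real.sqrt ε := ⟨_, rfl⟩
  have hμp : 0 < μ := by rw [hμ]; exact Real.sqrt_pos.2 hε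
  have hμ1 : μ ≤ 1 := by
    rw [hμ]
    calc Real.sqrt ε ≤ Real.sqrt 1 := Real.sqrt_le_sqrt hε1
      _ = 1 := Real.sqrt_one
  have hμε : ε = μ * μ := by rw [hμ]; exact (Real.mul_self_sqrt hε.le).symm
  rw [← hμ]
  obtain ⟨L, hL⟩ : ∃ L : ℝ, L = Real.log (1 + μ) := ⟨_, rfl⟩
  have hL1 : L ≤ μ := by
    rw [hL]
    have := Real.log_le_sub_one_of_pos (by linarith : (0 : ℝ) < 1 + μ)
    linarith
  have hL2 : μ - μ * μ / 2 ≤ L := by
    have h := Real.le_log_one_add_of_nonneg hμp.le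
    rw [← hL] at h
    refine le_trans ?_ h
    rw [le_div_iff₀ (by linarith)]
    nlinarith [mul_pos hμp hμp, mul_pos (mul_pos hμp hμp) hμp]
  have hL0 : 0 ≤ L := by rw [hL]; exact Real.log_nonneg (by linarith)
  have hey : Real.exp (Real.log y) = y := Real.exp_log hy
  have her : Real.exp L = 1 + μ := by rw [hL]; exact Real.exp_log (by linarith)
  rw [abs_le] at hys
  have a0 := hlin (Real.log y) (by rw [abs_le]; constructor <;> linarith [hys.1, hys.2])
  have a1 := hlin (Real.log y + L) (by rw [abs_le]; constructor <;> linarith [hys.1, hys.2])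
  have a2 := hlin (Real.log y - L) (by rw [abs_le]; constructor <;> linarith [hys.1, hys.2])
  rw [Real.exp_add, her, hey] at a1
  rw [Real.exp_sub, her, hey] at a2
  rw [hey] at a0
  have b1 := (q3 y (1 + μ) hy (by linarith)).2
  have b2 := (q3 (y / (1 + μ)) (1 + μ) (by positivity) (by linarith)).1
  have e1 : (1 + μ) * (y / (1 + μ)) = y := by field_simp
  rw [e1] at b2
  have e2 : 1 + μ - 1 = μ := by ring
  rw [e2] at b1 b2
  rw [mul_comm y (1 + μ)] at a1
  obtain ⟨X, hX⟩ : ∃ X : ℝ, X = y * Ct Q f y := ⟨_, rfl⟩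
  have e3 : μ * y * Ct Q f y = μ * X := by rw [hX]; ring
  have e4 : (1 + μ) * (μ * (y / (1 + μ)) * Ct Q f y) = μ * X := by
    rw [hX]; field_simp
  rw [e3] at b1
  rw [← hX]
  rw [abs_le] at a0 a1 a2 hc
  have c1 : c * L - 2 * ε ≤ μ * X := by
    have : c * (Real.log y + L - s0) = c * (Real.log y - s0) + c * L := by ring
    rw [this] at a1
    linarith [a0.1, a0.2, a1.1, a1.2]
  have c2 : μ * X ≤ (1 + μ) * (c * L + 2 * ε) := by
    have : c * (Real.log y - L - s0) = c * (Real.log y - s0) - c * L := by ring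
    rw [this] at a2
    rw [← e4]
    apply mul_le_mul_of_nonneg_left _ (by linarith)
    linarith [a0.1, a0.2, a2.1, a2.2]
  -- c L is near c μ
  have d1 : |c * L - c * μ| ≤ 2 * (μ * μ) := by
    have : c * L - c * μ = -(c * (μ - L)) := by ring
    rw [this, abs_neg, abs_mul, abs_of_nonneg (by linarith : 0 ≤ μ - L)]
    have h1 : μ - L ≤ μ * μ / 2 := by linarith
    have h2 : |c| ≤ 4 := abs_le.2 hc
    calc |c| * (μ - L) ≤ 4 * (μ * μ / 2) := by
          apply mul_le_mul h2 h1 (by linarith) (by norm_num)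
      _ = 2 * (μ * μ) := by ring
  rw [abs_le] at d1
  rw [hμε] at c1 c2
  rw [abs_le]
  constructor
  · by_contra hcon
    push Not at hcon
    have h1 : X < c - 10 * μ := by linarith
    have h2 : μ * X < μ * (c - 10 * μ) := mul_lt_mul_of_pos_left h1 hμp
    nlinarith [d1.1, d1.2, mul_pos hμp hμp]
  · by_contra hcon
    push Not at hcon
    have h1 : c + 10 * μ < X := by linarith
    have h2 : μ * (c + 10 * μ) < μ * X := mul_lt_mul_of_pos_left h1 hμp
    have h3 : c * L + 2 * (μ * μ) ≤ c * μ + 4 * (μ * μ) := by linarith [d1.2]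
    have h4 : (1 + μ) * (c * L + 2 * (μ * μ)) ≤ (1 + μ) * (c * μ + 4 * (μ * μ)) :=
      mul_le_mul_of_nonneg_left h3 (by linarith)
    have h5 : (1 + μ) * (c * μ + 4 * (μ * μ)) ≤ c * μ + 10 * (μ * μ) := by
      have h6 : μ * μ * μ ≤ μ * μ := by nlinarith [mul_pos hμp hμp]
      have h7 : c * (μ * μ) ≤ 4 * (μ * μ) :=
        mul_le_mul_of_nonneg_right hc.2 (by positivity)
      nlinarith [mul_pos hμp hμp, h6, h7]
    nlinarith [mul_pos hμp hμp]

end Pool.Agent.Helper45.PRD
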