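import Pool.Agent.Helper76.DE.StT

/-!
# Project PRD (MP_77ff3d_nt), module Tau: the Tauberian theorem
-/

set_option autoImplicit false

noncomputable section

namespace Pool.Agent.Helper45.PRD

open Finset Pool.Agent.Helper76.ND Pool.Agent.Helper76.DE

theorem rho_low_T : 11 / 80 ≤ rho := by
  unfold rho
  have h1 : (1 : ℝ) - (16 / 15)⁻¹ ≤ Real.log (16 / 15) := Real.one_sub_inv_le_log_of_pos (by norm_num)
  have h2 : (1 : ℝ) - (15 / 14)⁻¹ ≤ Real.log (15 / 14) := Real.one_sub_inv_le_log_of_pos (by norm_num)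
  have h3 : (1 : ℝ) - (14 / 13)⁻¹ ≤ Real.log (14 / 13) := Real.one_sub_inv_le_log_of_pos (by norm_num)
  have h4 : (1 : ℝ) - (13 / 12)⁻¹ ≤ Real.log (13 / 12) := Real.one_sub_inv_le_log_of_pos (by norm_num)
  have e : Real.log (4 / 3) = Real.log (16 / 15) + Real.log (15 / 14) + Real.log (14 / 13) +
      Real.log (13 / 12) := by
    rw [← Real.log_mul (by norm_num) (by norm_num), ← Real.log_mul (by norm_num) (by norm_num),
      ← Real.log_mul (by norm_num) (by norm_num)]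
    norm_num
  rw [e]
  norm_num at h1 h2 h3 h4
  linarith

theorem II_bounds (hPo : StPo) (f : ℕ → ℝ) (hf : ∀ n, 0 ≤ f n ∧ f n ≤ 1) (y : ℝ) (hy : 0 < y) :
    0 ≤ II y f ∧ II y f ≤ 1 / 2 := by
  obtain ⟨-, hp2, -, -, -, -, -, -, -⟩ := hPo
  unfold II mu
  constructor
  · apply Finset.sum_nonneg
    intro n _
    exact mul_nonneg (div_nonneg (hp2 _).1 hy.le) (hf n).1
  · have h1 : ∑ N ∈ Icc 1 ⌊2 * y⌋₊, gg (N / y) / y * f N ≤
        ∑ N ∈ Icc 1 ⌊2 * y⌋₊, (1 / 4) / y := by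
      apply Finset.sum_le_sum
      intro n _
      have h2 : gg (n / y) / y ≤ (1 / 4) / y := by
        apply div_le_div_of_nonneg_right (hp2 _).2.1 hy.le
      have h3 : 0 ≤ gg (n / y) / y := div_nonneg (hp2 _).1 hy.le
      calc gg (n / y) / y * f n ≤ gg (n / y) / y * 1 :=
            mul_le_mul_of_nonneg_left (hf n).2 h3
        _ ≤ (1 / 4) / y := by rw [mul_one]; exact h2
    rw [Finset.sum_const, Nat.card_Icc, nsmul_eq_mul] at h1
    have h2 : ((⌊2 * y⌋₊ + 1 - 1 : ℕ) : ℝ) ≤ 2 * y := by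
      rw [Nat.add_sub_cancel]
      exact Nat.floor_le (by linarith)
    have h3 : ((⌊2 * y⌋₊ + 1 - 1 : ℕ) : ℝ) * (1 / 4 / y) ≤ 2 * y * (1 / 4 / y) := by
      apply mul_le_mul_of_nonneg_right h2 (by positivity)
    have h4 : 2 * y * (1 / 4 / y) = 1 / 2 := by field_simp; norm_num
    linarith

/-- **Tau** (Tauberian theorem) -/
theorem hTau (hPo : StPo) (hNl : StNl) (hHh : StHh) (hRr : StRr) (hCe : StCe) : StTau := by
  intro ε hε
  have hrho := rho_low_T
  have hrp : 0 < rho := by linarith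
  -- choice of T
  obtain ⟨T, hT2, hTe⟩ : ∃ T : ℝ, 2 ≤ T ∧ 28 * Real.exp (-(T - 1)) ≤ ε / 4 := by
    refine ⟨max 2 (1 + 112 / ε), le_max_left _ _, ?_⟩
    have h1 : 1 + 112 / ε ≤ max 2 (1 + 112 / ε) := le_max_right _ _
    have h2 : 112 / ε ≤ Real.exp (max 2 (1 + 112 / ε) - 1) := by
      have := Real.add_one_le_exp (max 2 (1 + 112 / ε) - 1)
      linarith
    rw [Real.exp_neg, ← div_eq_mul_inv, div_le_iff₀ (Real.exp_pos _)]
    rw [div_le_iff₀ hε] at h2
    linarith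
  -- choice of ε3
  obtain ⟨ε3, hε3p, hε31, hε3s⟩ : ∃ ε3 : ℝ, 0 < ε3 ∧ ε3 ≤ 1 ∧ 30 * Real.sqrt ε3 ≤ ε / 4 := by
    refine ⟨min 1 ((ε / 120) ^ 2), lt_min one_pos (by positivity), min_le_left _ _, ?_⟩
    have h1 : Real.sqrt (min 1 ((ε / 120) ^ 2)) ≤ ε / 120 := by
      calc Real.sqrt (min 1 ((ε / 120) ^ 2)) ≤ Real.sqrt ((ε / 120) ^ 2) :=
            Real.sqrt_le_sqrt (min_le_right _ _)
        _ = ε / 120 := Real.sqrt_sq (by positivity)
    linarith
  obtain ⟨Λ, η0, hTΛ, hη0, hN⟩ := hNl T ε3 (by linarith) hε3p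
  obtain ⟨K, hK1, hK2, hK3⟩ : ∃ K : ℝ, Real.exp (Λ + 1) ≤ K ∧
      32 / ε * Real.exp (T - 1) ≤ K ∧ 2 ≤ K :=
    ⟨max (Real.exp (Λ + 1)) (max (32 / ε * Real.exp (T - 1)) 2), le_max_left _ _,
      le_trans (le_max_left _ _) (le_max_right _ _), le_trans (le_max_right _ _) (le_max_right _ _)⟩
  have hKp : 0 < K := by linarith
  refine ⟨K, min η0 (1 / 20), hK3, lt_min hη0 (by norm_num), ?_⟩
  intro M f l hKM hf hII
  have hηa : min η0 (1 / 20) ≤ η0 := min_le_left _ _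
  have hηb : min η0 (1 / 20) ≤ 1 / 20 := min_le_right _ _
  have hMp : (0 : ℝ) < M := by linarith
  have hM1 : (1 : ℝ) ≤ M := by linarith
  obtain ⟨Q, hQ⟩ : ∃ Q : ℕ, 2 * K * M ≤ Q := ⟨⌈2 * K * M⌉₊, Nat.le_ceil _⟩
  obtain ⟨q1, q2, q3, q4, q5, q6⟩ := hHh Q f hf
  obtain ⟨s0, hs0⟩ : ∃ s0 : ℝ, s0 = Real.log M := ⟨_, rfl⟩
  have hes0 : Real.exp s0 = M := by rw [hs0]; exact Real.exp_log hMp
  -- bounds for exp u
  have hMK : 1 ≤ (M : ℝ) / K := by rw [le_div_iff₀ hKp]; linarith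
  have hEK : Real.exp Λ ≤ K := le_trans (Real.exp_le_exp.2 (by linarith)) hK1
  have hexp : ∀ u, |u - s0| ≤ Λ → (M : ℝ) / K ≤ Real.exp u ∧ Real.exp u ≤ K * M ∧
      1 ≤ Real.exp u ∧ 2 * Real.exp u ≤ Q := by
    intro u hu
    rw [abs_le] at hu
    have a1 : (M : ℝ) / K ≤ Real.exp u := by
      rw [div_le_iff₀ hKp]
      have b1 : Real.exp s0 ≤ Real.exp (u + Λ) := Real.exp_le_exp.2 (by linarith [hu.1])
      rw [hes0, Real.exp_add] at b1
      calc (M : ℝ) ≤ Real.exp u * Real.exp Λ := b1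
        _ ≤ Real.exp u * K := mul_le_mul_of_nonneg_left hEK (Real.exp_pos u).le
    have a2 : Real.exp u ≤ K * M := by
      have b1 : Real.exp u ≤ Real.exp (Λ + s0) := Real.exp_le_exp.2 (by linarith [hu.2])
      rw [Real.exp_add, hes0] at b1
      calc Real.exp u ≤ Real.exp Λ * M := b1
        _ ≤ K * M := mul_le_mul_of_nonneg_right hEK hMp.le
    refine ⟨a1, a2, by linarith, by linarith⟩
  have hla1 : 0 < la := Real.log_pos (by norm_num)
  have hlb1 : 0 < lb := Real.log_pos (by norm_num)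
  have hla2 : Real.exp la = 2 := by unfold la; exact Real.exp_log (by norm_num)
  have hlb2 : Real.exp lb = 3 / 2 := by unfold lb; exact Real.exp_log (by norm_num)
  have hlin := hN (fun s => HH Q f (Real.exp s)) s0 l (by
    intro u v hu hv huv hvu
    obtain ⟨-, -, e3, -⟩ := hexp u hu
    have h1 := q2 (Real.exp u) (Real.exp v) e3 (Real.exp_le_exp.2 huv)
    show 0 ≤ HH Q f (Real.exp v) - HH Q f (Real.exp u) ∧ _
    refine ⟨h1.1, le_trans h1.2 ?_⟩
    rw [← Real.exp_sub]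
    have h2 := Real.abs_exp_sub_one_le (x := v - u) (by
      rw [abs_of_nonneg (by linarith)]; linarith)
    rw [abs_of_nonneg (by linarith : 0 ≤ v - u)] at h2
    have h3 := le_abs_self (Real.exp (v - u) - 1)
    linarith) (by
    intro u hu1 hu2
    have hu : |u - s0| ≤ Λ := by
      rw [abs_le]; constructor <;> linarith
    obtain ⟨e1, e2, e3, e4⟩ := hexp u hu
    have h1 := q1 (Real.exp u) (Real.exp_pos u) e4
    have h2 := hII (Real.exp u) e1 e2
    show |HH Q f (Real.exp u) - (HH Q f (Real.exp (u - la)) + HH Q f (Real.exp (u + lb))) / 2 - l| ≤ η0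
    have h3 : Real.exp (u - la) = Real.exp u / 2 := by
      rw [Real.exp_sub, hla2]
    have h4 : Real.exp (u + lb) = 3 * Real.exp u / 2 := by
      rw [Real.exp_add, hlb2]; ring
    rw [h3, h4, ← h1]
    linarith)
  -- bound for c
  obtain ⟨c, hc⟩ : ∃ c : ℝ, c = l / rho := ⟨_, rfl⟩
  rw [← hc] at hlin ⊢
  have hc4 : |c| ≤ 4 := by
    have h1 := hII M (by rw [div_le_iff₀ hKp]; nlinarith) (by nlinarith)
    have h2 := II_bounds hPo f hf M hMp
    rw [abs_le] at h1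
    rw [hc, abs_div, abs_of_pos hrp, div_le_iff₀ hrp, abs_le]
    constructor <;> linarith [h1.1, h1.2, h2.1, h2.2]
  have hR := hRr Q f s0 c T ε3 hf hε3p hε31 hc4 (by linarith) hlin
  -- choice of N0
  have hE : Real.exp (-(T - 1)) * Real.exp (T - 1) = 1 := by
    rw [← Real.exp_add]; simp
  have hEp : 0 < Real.exp (-(T - 1)) := Real.exp_pos _
  have hx1 : 1 ≤ (M : ℝ) * Real.exp (-(T - 1)) := by
    have h1 : Real.exp (T - 1) ≤ M := by
      calc Real.exp (T - 1) ≤ Real.exp (Λ + 1) := Real.exp_le_exp.2 (by linarith)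
        _ ≤ M := by linarith
    calc (1 : ℝ) = Real.exp (T - 1) * Real.exp (-(T - 1)) := by rw [mul_comm, hE]
      _ ≤ M * Real.exp (-(T - 1)) := mul_le_mul_of_nonneg_right h1 hEp.le
  have hE1 : Real.exp (-(T - 1)) ≤ 1 := Real.exp_le_one_iff.2 (by linarith)
  obtain ⟨N0, hN0⟩ : ∃ N0 : ℕ, N0 = ⌈(M : ℝ) * Real.exp (-(T - 1))⌉₊ := ⟨_, rfl⟩
  have hN0a : (M : ℝ) * Real.exp (-(T - 1)) ≤ N0 := by rw [hN0]; exact Nat.le_ceil _
  have hN0b : (N0 : ℝ) ≤ 2 * (M * Real.exp (-(T - 1))) := by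
    have := Nat.ceil_lt_add_one (a := (M : ℝ) * Real.exp (-(T - 1))) (by linarith)
    rw [← hN0] at this
    linarith
  have hN01 : 1 ≤ N0 := by
    have : (1 : ℝ) ≤ N0 := by linarith
    exact_mod_cast this
  have hN0M : N0 ≤ M := by
    rw [hN0, Nat.ceil_le]
    calc (M : ℝ) * Real.exp (-(T - 1)) ≤ M * 1 := mul_le_mul_of_nonneg_left hE1 hMp.le
      _ = M := mul_one _
  have hMQ : M ≤ Q := by
    have : (M : ℝ) ≤ Q := by nlinarith
    exact_mod_cast this
  have hC := hCe Q M N0 f c (10 * Real.sqrt ε3) hf hN01 hN0M hMQ hc4 (by positivity) (by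
    intro n hn1 hn2
    have hnp : (0 : ℝ) < n := by
      have : 0 < n := by omega
      exact_mod_cast this
    apply hR n hnp
    have h1 : Real.log n ≤ s0 := by
      rw [hs0]
      apply Real.log_le_log hnp
      exact_mod_cast hn2
    have h2 : s0 - (T - 1) ≤ Real.log n := by
      rw [Real.le_log_iff_exp_le hnp]
      have h3 : Real.exp (s0 - (T - 1)) = M * Real.exp (-(T - 1)) := by
        rw [sub_eq_add_neg, Real.exp_add, hes0]
      rw [h3]
      have h4 : (N0 : ℝ) ≤ n := by exact_mod_cast hn1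
      linarith
    rw [abs_le]
    constructor <;> linarith)
  have hN0p : (0 : ℝ) < N0 := by exact_mod_cast hN01
  have t1 : 14 * (N0 : ℝ) / M ≤ ε / 4 := by
    rw [div_le_iff₀ hMp]
    have : 14 * (N0 : ℝ) ≤ 28 * Real.exp (-(T - 1)) * M := by linarith
    calc 14 * (N0 : ℝ) ≤ 28 * Real.exp (-(T - 1)) * M := this
      _ ≤ ε / 4 * M := mul_le_mul_of_nonneg_right hTe hMp.le
  have t2 : 2 / (N0 : ℝ) ≤ ε / 16 := by
    rw [div_le_iff₀ hN0p]
    have h1 : 32 / ε ≤ N0 := by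
      calc 32 / ε = 32 / ε * Real.exp (T - 1) * Real.exp (-(T - 1)) := by
            rw [mul_assoc, mul_comm (Real.exp (T - 1)), hE, mul_one]
        _ ≤ M * Real.exp (-(T - 1)) := by
            apply mul_le_mul_of_nonneg_right _ hEp.le
            linarith
        _ ≤ N0 := hN0a
    rw [div_le_iff₀ hε] at h1
    linarith
  have t3 : 3 * (10 * Real.sqrt ε3) = 30 * Real.sqrt ε3 := by ring
  linarith

end Pool.Agent.Helper45.PRD
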